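import Pool.Agent.Y382.DN.Walk
import Pool.Agent.Y417.DN.CUBE
import Pool.Agent.Y899.DN.CTX
import Pool.Agent.Y429.DN.REP
import Pool.Agent.Y436.DN.REPA
import Pool.Agent.Y433.DN.Sharp
import Pool.Agent.Y941.DN.SIM

/-!
# Representation functions of sets decided by decomposable circuits

A set `A` of natural numbers is given, below `N = 2 ^ m`, by a DNNF (decomposable negation normal
form: the conjuncts of a conjunction have no variable in common, disjunctions are unrestricted;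
this includes nondeterministic read-once branching programs, which may read the bits in a different
order on every path) with `s` gates, whose leaves may be arbitrary functions of `w` bits. If every
number has fewer than `2 ^ (t + 1)` ordered representations as a sum of two elements of `A`, then
`A` has at most `(2 ^ (w + 3 t + 3) s) ^ t` elements below `N`. This is sharp up to a power of
`log N` for all sizes. Hence the sets which satisfy the density condition of the question and have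
bounded representation function need `N ^ (1 / (2 t) - o(1))` gates.
-/

set_option autoImplicit false

namespace Pool.Agent.Results.MP_491344_nt.DecomposableCircuits

open Pool.Agent.TH454.BW Pool.Agent.Y382.DN

theorem result :
    -- (1) the bound
    (∀ (A : Set ℕ) (m s w t : ℕ), SetDnnf m s w A →
      (2 ^ (w + 3 * t + 3) * s) ^ t < Nat.card {a : ℕ // a ∈ A ∧ a < 2 ^ m} →
      ∃ n < 2 ^ (m + 1), 2 ^ (t + 1) ≤ reps A n) ∧
    -- (2) the asymptotic form
    (∀ (t : ℕ) (c c' d : ℝ), 1 ≤ t → 0 < c' → c < d / t →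
      ∃ m₀ : ℕ, ∀ (m s : ℕ) (A : Set ℕ), m₀ ≤ m → SetDnnf m s 1 A →
        (∀ n < 2 ^ (m + 1), reps A n < 2 ^ (t + 1)) →
        c' * ((2 : ℝ) ^ m) ^ d ≤ Nat.card {a : ℕ // a ∈ A ∧ a < 2 ^ m} →
        ((2 : ℝ) ^ m) ^ c < s) ∧
    -- (3) the density condition of the question
    (∀ (g : ℕ → ℝ) (A : Set ℕ) (t : ℕ) (c : ℝ), 1 ≤ t → c < 1 / (2 * t) →
      Filter.Tendsto g Filter.atTop Filter.atTop →
      (∀ ε : ℝ, 0 < ε → ∀ᶠ N : ℕ in Filter.atTop, g N ≤ (N : ℝ) ^ ε) →
      (∃ C : ℝ, 0 < C ∧ ∀ᶠ N : ℕ in Filter.atTop,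
        (N : ℝ) ^ (1 / 2 : ℝ) / g N ≤ C * Nat.card {a : ℕ // a ∈ A ∧ 1 ≤ a ∧ a ≤ N}) →
      (∀ n, reps A n < 2 ^ (t + 1)) →
      ∀ᶠ m : ℕ in Filter.atTop, ∀ s : ℕ, SetDnnf m s 1 A → ((2 : ℝ) ^ m) ^ c < s) ∧
    -- (4) the bound (1) is sharp up to a power of `m`, for all sizes
    (∀ t l m : ℕ, 2 ≤ l → (2 * l + 4) * t ≤ m →
      ∃ (s : ℕ) (A : Set ℕ), (∀ a ∈ A, a < 2 ^ m) ∧ SetDnnf m s 1 A ∧ (∀ n, reps A n ≤ 2 ^ t) ∧
        s ≤ 60 * (m + 1) * 2 ^ l ∧
        2 ^ ((l - 1) * t) ≤ Nat.card {a : ℕ // a ∈ A ∧ a < 2 ^ m}) := by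
  have hrep : S_REP := Pool.Agent.Y429.DN.REP.t_REP
    (Pool.Agent.Y417.DN.t_CUBE t_WALK t_REACH Pool.Agent.Y899.DN.CTX.t_CTX)
  have hrepa : S_REPA := Pool.Agent.Y436.DN.t_REPA hrep
  exact ⟨hrep, hrepa, Pool.Agent.Y436.DN.t_REPF hrepa,
    Pool.Agent.Y433.DN.t_SHR Pool.Agent.Y941.DN.t_SIM⟩

end Pool.Agent.Results.MP_491344_nt.DecomposableCircuits
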