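import Pool.Agent.TH314.ET.Equi

/-!
# Density thresholds and the distribution modulo primes

`rep A n` is the number of ordered pairs of elements of `A` with sum `n`. For a prime `p` let
`bias A N p = p ∑_c (A(N; p, c) / A(N)) ^ 2 - 1 ≥ 0`, where `A(N)` and `A(N; p, c)` are the numbers of
the elements of `A ∩ [1, N]` and of those which are congruent to `c` modulo `p`; it vanishes if and
only if `A ∩ [1, N]` is equidistributed modulo `p`.

1. For all sets `A` and all `N` we have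
   `A(N) ^ 4 ∑_{p ≤ √N} bias A N p ^ 2 / (p - 1) ≤ 18 N ∑_{n ≤ 2 N} rep A n ^ 2`.
2. If `A(N) ≫ √N / g(N)` and `∑_{p ≤ √N} bias A N p ^ 2 / (p - 1)` is not `O(g(N) ^ 4)`, then
   `rep A` is unbounded, even in mean square.
3. Let `Q` be a set of primes, `δ > 0`, and `g(N) → ∞` with `g(N) ^ 4 = o(∑_{p ∈ Q, p ≤ √N} 1 / p)`.
   Inside the class of all sets `A` with `bias A N p ≥ δ` for `p ∈ Q`, `p₀ ≤ p ≤ √N` and all large
   `N` the function `g` forces unbounded representations. (There is no condition on the number of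
   the residue classes which contain elements of `A`.)
4. If `∑_{p ∈ Q} 1 / p = ∞`, then some `g → ∞` forces unbounded representations inside this class,
   for all `δ`.
-/

set_option autoImplicit false

namespace Pool.Agent.Results.MP_491344_nt.NonuniformThresholds

open Filter Finset Topology Pool.Agent.TH314.ET

/-- the number of the elements of `A` in `[1, N]` -/
noncomputable def count (A : Set ℕ) (N : ℕ) : ℝ := ((A ∩ Set.Icc 1 N).ncard : ℝ)

/-- the number of the elements of `A` in `[1, N]` which are congruent to `c` modulo `p` -/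
noncomputable def countMod (A : Set ℕ) (N p c : ℕ) : ℝ :=
  ({a ∈ A ∩ Set.Icc 1 N | a % p = c}.ncard : ℝ)

/-- the chi-square distance of `A ∩ [1, N]` from the uniform distribution modulo `p` -/
noncomputable def bias (A : Set ℕ) (N p : ℕ) : ℝ :=
  p * ∑ c ∈ range p, (countMod A N p c / count A N) ^ 2 - 1

/-- the sum over the primes `p ≤ √N` of `bias A N p ^ 2 / (p - 1)` -/
noncomputable def biasSum (A : Set ℕ) (N : ℕ) : ℝ :=
  ∑ p ∈ (Icc 1 (Nat.sqrt N)).filter Nat.Prime, bias A N p ^ 2 / (p - 1)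

open Classical in
/-- the sum of `1 / p` over the primes `p ≤ √N` in `Q` -/
noncomputable def recSum (Q : Set ℕ) (N : ℕ) : ℝ :=
  ∑ p ∈ (Icc 1 (Nat.sqrt N)).filter (fun p => p.Prime ∧ p ∈ Q), 1 / (p : ℝ)

/-- `|A ∩ [1, N]| ≫ √N / g(N)` -/
def Dense (g : ℕ → ℝ) (A : Set ℕ) : Prop :=
  ∃ C : ℝ, 0 < C ∧ ∀ᶠ N : ℕ in atTop, Real.sqrt N / g N ≤ C * count A N

/-- for some `p₀` and all large `N` we have `bias A N p ≥ δ` for all primes `p ∈ Q` with
`p₀ ≤ p ≤ √N` -/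
def Biased (Q : Set ℕ) (δ : ℝ) (A : Set ℕ) : Prop :=
  ∃ p₀ : ℕ, ∀ᶠ N : ℕ in atTop, ∀ p ∈ Q, p.Prime → p₀ ≤ p → p ≤ Nat.sqrt N → δ ≤ bias A N p

theorem bias_eq (A : Set ℕ) (N p : ℕ) : bias A N p = chi (seg A N) p := by
  classical
  unfold bias chi
  have h : ∀ c, countMod A N p c = (((seg A N).filter (fun a => a % p = c)).card : ℝ) := by
    intro c
    rw [countMod, ← Set.ncard_coe_finset]
    congr 2
    ext a
    simp only [Set.mem_ofPred_eq, Set.mem_inter_iff, Set.mem_Icc, Finset.coe_filter, mem_seg]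
    tauto
  have h2 : count A N = ((seg A N).card : ℝ) := by rw [count, seg_card]
  simp only [h, h2]

theorem biasSum_nonneg (A : Set ℕ) (N : ℕ) : 0 ≤ biasSum A N := by
  refine Finset.sum_nonneg fun p hp => div_nonneg (sq_nonneg _) ?_
  have : (1 : ℝ) < p := by exact_mod_cast (mem_filter.1 hp).2.one_lt
  linarith

theorem energy (A : Set ℕ) (N : ℕ) : count A N ^ 4 * biasSum A N ≤
    18 * N * ∑ n ∈ range (2 * N + 1), (rep A n : ℝ) ^ 2 := by
  have h := chi_form A N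
  unfold biasSum count
  simp only [bias_eq]
  exact h

theorem threshold (g : ℕ → ℝ) (A : Set ℕ) (hg : ∀ᶠ N in atTop, 0 < g N) (hA : Dense g A)
    (hb : ∀ B : ℝ, ∃ᶠ N : ℕ in atTop, B * g N ^ 4 ≤ biasSum A N) (B : ℝ) :
    ∃ᶠ N : ℕ in atTop, B * N < ∑ n ∈ range N, (rep A n : ℝ) ^ 2 := by
  obtain ⟨C, hC, hev⟩ := hA
  rw [frequently_atTop]
  intro M
  obtain ⟨N, hN1, hN2, hN3, hN4⟩ := ((hb (18 * C ^ 4 * (3 * |B| + 1))).and_eventually
    (hev.and (hg.and (eventually_ge_atTop (M + 1))))).exists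
  refine ⟨2 * N + 1, by omega, ?_⟩
  have hN0 : (1 : ℝ) ≤ N := by exact_mod_cast (by omega : 1 ≤ N)
  have h1 := energy A N
  have h2 : Real.sqrt N ≤ C * count A N * g N := by
    rwa [div_le_iff₀ hN3] at hN2
  have h3 : (N : ℝ) ^ 2 ≤ (C * count A N * g N) ^ 4 := by
    have h4 := pow_le_pow_left₀ (Real.sqrt_nonneg _) h2 4
    have h5 : Real.sqrt N ^ 4 = (N : ℝ) ^ 2 := by
      rw [show (4 : ℕ) = 2 * 2 by norm_num, pow_mul, Real.sq_sqrt (by linarith)]
    rwa [h5] at h4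
  set T := ∑ n ∈ range (2 * N + 1), (rep A n : ℝ) ^ 2 with hT
  have hc0 : 0 ≤ count A N ^ 4 := by positivity
  have h4 : count A N ^ 4 * (18 * C ^ 4 * (3 * |B| + 1) * g N ^ 4) ≤ 18 * N * T :=
    (mul_le_mul_of_nonneg_left hN1 hc0).trans h1
  have h5 : 18 * (3 * |B| + 1) * (N : ℝ) ^ 2 ≤ 18 * N * T := by
    have h6 : 18 * (3 * |B| + 1) * (N : ℝ) ^ 2 ≤
        18 * (3 * |B| + 1) * (C * count A N * g N) ^ 4 :=
      mul_le_mul_of_nonneg_left h3 (by positivity)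
    refine h6.trans (le_trans (le_of_eq ?_) h4)
    ring
  have h6 : (3 * |B| + 1) * N ≤ T := by
    have h7 : (18 * (N : ℝ)) * ((3 * |B| + 1) * N) ≤ (18 * N) * T := by
      calc (18 * (N : ℝ)) * ((3 * |B| + 1) * N) = 18 * (3 * |B| + 1) * (N : ℝ) ^ 2 := by ring
        _ ≤ _ := h5
    exact le_of_mul_le_mul_left h7 (by linarith)
  have h7 : B * ((2 * N + 1 : ℕ) : ℝ) ≤ |B| * (3 * N) := by
    calc B * ((2 * N + 1 : ℕ) : ℝ) ≤ |B| * ((2 * N + 1 : ℕ) : ℝ) :=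
          mul_le_mul_of_nonneg_right (le_abs_self B) (Nat.cast_nonneg _)
      _ ≤ |B| * (3 * N) := by
          apply mul_le_mul_of_nonneg_left _ (abs_nonneg _)
          push_cast
          linarith
  nlinarith

theorem recSum_mono (Q : Set ℕ) {M N : ℕ} (h : M ≤ N) : recSum Q M ≤ recSum Q N := by
  classical
  refine Finset.sum_le_sum_of_subset_of_nonneg ?_ fun p _ _ => by positivity
  intro p hp
  rw [mem_filter, mem_Icc] at hp ⊢
  exact ⟨⟨hp.1.1, hp.1.2.trans (Nat.sqrt_le_sqrt h)⟩, hp.2⟩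

theorem sum_ge (Q : Set ℕ) (δ : ℝ) (hδ : 0 < δ) (A : Set ℕ) (p₀ N : ℕ)
    (h : ∀ p ∈ Q, p.Prime → p₀ ≤ p → p ≤ Nat.sqrt N → δ ≤ bias A N p) :
    δ ^ 2 * (recSum Q N - recSum Q (p₀ ^ 2)) ≤ biasSum A N := by
  classical
  have h1 : recSum Q N - recSum Q (p₀ ^ 2) ≤
      ∑ p ∈ (Icc 1 (Nat.sqrt N)).filter (fun p => (p.Prime ∧ p ∈ Q) ∧ p₀ ≤ p), 1 / (p : ℝ) := by
    rw [sub_le_iff_le_add, add_comm]
    unfold recSum
    rw [Nat.sqrt_eq', ← Finset.filter_filter _ (fun p => p₀ ≤ p)]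
    conv_lhs =>
      rw [← Finset.sum_filter_add_sum_filter_not
        ((Icc 1 (Nat.sqrt N)).filter (fun p => p.Prime ∧ p ∈ Q)) (fun p => p₀ ≤ p), add_comm]
    refine add_le_add (Finset.sum_le_sum_of_subset_of_nonneg ?_ fun p _ _ => by positivity) le_rfl
    intro p hp
    simp only [mem_filter, mem_Icc, not_le] at hp ⊢
    exact ⟨⟨hp.1.1.1, hp.2.le⟩, hp.1.2⟩
  refine (mul_le_mul_of_nonneg_left h1 (sq_nonneg δ)).trans ?_
  rw [Finset.mul_sum]
  have h2 : ∑ p ∈ (Icc 1 (Nat.sqrt N)).filter (fun p => (p.Prime ∧ p ∈ Q) ∧ p₀ ≤ p),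
      δ ^ 2 * (1 / (p : ℝ)) ≤
      ∑ p ∈ (Icc 1 (Nat.sqrt N)).filter (fun p => (p.Prime ∧ p ∈ Q) ∧ p₀ ≤ p),
        bias A N p ^ 2 / (p - 1) := by
    refine Finset.sum_le_sum fun p hp => ?_
    simp only [mem_filter, mem_Icc] at hp
    have hp1 : (1 : ℝ) < p := by exact_mod_cast hp.2.1.1.one_lt
    have h3 := h p hp.2.1.2 hp.2.1.1 hp.2.2 hp.1.2
    rw [mul_one_div]
    calc δ ^ 2 / (p : ℝ) ≤ δ ^ 2 / (p - 1) :=
          div_le_div_of_nonneg_left (by positivity) (by linarith) (by linarith)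
      _ ≤ bias A N p ^ 2 / (p - 1) :=
          div_le_div_of_nonneg_right (pow_le_pow_left₀ hδ.le h3 2) (by linarith)
  refine h2.trans (Finset.sum_le_sum_of_subset_of_nonneg ?_ fun p hp _ => ?_)
  · intro p hp
    simp only [mem_filter, mem_Icc] at hp ⊢
    exact ⟨hp.1, hp.2.1.1⟩
  · have hp1 : (1 : ℝ) < p := by exact_mod_cast (mem_filter.1 hp).2.one_lt
    exact div_nonneg (sq_nonneg _) (by linarith)

theorem biased_case (Q : Set ℕ) (δ : ℝ) (hδ : 0 < δ) (g : ℕ → ℝ) (hg : Tendsto g atTop atTop)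
    (hs : Tendsto (fun N => recSum Q N / g N ^ 4) atTop atTop) (A : Set ℕ) (hA : Biased Q δ A)
    (B : ℝ) : ∃ᶠ N : ℕ in atTop, B * g N ^ 4 ≤ biasSum A N := by
  obtain ⟨p₀, hp₀⟩ := hA
  refine Eventually.frequently ?_
  filter_upwards [hp₀, hs.eventually_ge_atTop (|B| / δ ^ 2 + recSum Q (p₀ ^ 2)),
    hg.eventually_ge_atTop 1] with N h1 h2 h3
  have h4 := sum_ge Q δ hδ A p₀ N h1
  have h5 : (1 : ℝ) ≤ g N ^ 4 := one_le_pow₀ h3
  have h6 : (0 : ℝ) < g N ^ 4 := by linarith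
  have h7 : (|B| / δ ^ 2 + recSum Q (p₀ ^ 2)) * g N ^ 4 ≤ recSum Q N := by
    rwa [le_div_iff₀ h6] at h2
  have h8 : 0 ≤ recSum Q (p₀ ^ 2) := Finset.sum_nonneg fun p _ => by positivity
  have h9 : recSum Q (p₀ ^ 2) ≤ recSum Q (p₀ ^ 2) * g N ^ 4 := le_mul_of_one_le_right h8 h5
  have h10 : |B| / δ ^ 2 * g N ^ 4 ≤ recSum Q N - recSum Q (p₀ ^ 2) := by linarith
  have h11 := mul_le_mul_of_nonneg_left h10 (sq_nonneg δ)
  have h12 : δ ^ 2 * (|B| / δ ^ 2 * g N ^ 4) = |B| * g N ^ 4 := by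
    field_simp
  rw [h12] at h11
  refine (mul_le_mul_of_nonneg_right (le_abs_self B) h6.le).trans (h11.trans h4)

theorem recSum_tendsto (Q : Set ℕ)
    (hQ : ¬ Summable (Set.indicator {p : ℕ | p.Prime ∧ p ∈ Q} fun p : ℕ => 1 / (p : ℝ))) :
    Tendsto (recSum Q) atTop atTop := by
  classical
  refine tendsto_atTop_mono' atTop (f₁ := fun N => ∑ p ∈ range (Nat.sqrt N + 1),
    Set.indicator {p : ℕ | p.Prime ∧ p ∈ Q} (fun p : ℕ => 1 / (p : ℝ)) p) ?_ ?_
  · refine Eventually.of_forall fun N => ?_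
    unfold recSum
    rw [Finset.sum_filter]
    have h1 : ∀ p : ℕ, Set.indicator {p : ℕ | p.Prime ∧ p ∈ Q} (fun p : ℕ => 1 / (p : ℝ)) p =
        if p.Prime ∧ p ∈ Q then 1 / (p : ℝ) else 0 := fun p => by
      rw [Set.indicator_apply]
      rfl
    simp only [h1]
    rw [Finset.sum_range_succ', if_neg (fun h => Nat.not_prime_zero h.1), add_zero,
      Finset.range_eq_Ico, Finset.sum_Ico_add' (fun p : ℕ => if p.Prime ∧ p ∈ Q then 1 / (p : ℝ)
        else 0) 0 (Nat.sqrt N) 1]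
    refine le_of_eq (Finset.sum_congr ?_ fun _ _ => rfl)
    ext x
    simp only [mem_Ico, mem_Icc]
    omega
  · have h1 : Tendsto (fun n : ℕ => ∑ p ∈ range n,
        Set.indicator {p : ℕ | p.Prime ∧ p ∈ Q} (fun p : ℕ => 1 / (p : ℝ)) p) atTop atTop := by
      refine (not_summable_iff_tendsto_nat_atTop_of_nonneg fun n => ?_).1 hQ
      exact Set.indicator_nonneg (fun p _ => by positivity) n
    refine h1.comp ?_
    refine tendsto_atTop_atTop.2 fun b => ⟨b ^ 2, fun N hN => ?_⟩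
    have : b ≤ Nat.sqrt N := by
      rw [Nat.le_sqrt']
      exact hN
    omega

/-- **Density thresholds and the distribution modulo primes.** -/
theorem result :
    -- 1. the inequality
    (∀ (A : Set ℕ) (N : ℕ), count A N ^ 4 * biasSum A N ≤
      18 * N * ∑ n ∈ range (2 * N + 1), (rep A n : ℝ) ^ 2) ∧
    -- 2. thresholds
    (∀ (g : ℕ → ℝ) (A : Set ℕ), (∀ᶠ N in atTop, 0 < g N) → Dense g A →
      (∀ B : ℝ, ∃ᶠ N : ℕ in atTop, B * g N ^ 4 ≤ biasSum A N) →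
      (∀ B : ℝ, ∃ᶠ N : ℕ in atTop, B * N < ∑ n ∈ range N, (rep A n : ℝ) ^ 2) ∧
      ∀ K : ℕ, ∃ n, K < rep A n) ∧
    -- 3. thresholds inside the class of the sets which are biased modulo the primes of `Q`
    (∀ (Q : Set ℕ) (δ : ℝ) (g : ℕ → ℝ), 0 < δ → Tendsto g atTop atTop →
      Tendsto (fun N => recSum Q N / g N ^ 4) atTop atTop →
      ∀ A : Set ℕ, Biased Q δ A → Dense g A →
        (∀ B : ℝ, ∃ᶠ N : ℕ in atTop, B * N < ∑ n ∈ range N, (rep A n : ℝ) ^ 2) ∧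
        ∀ K : ℕ, ∃ n, K < rep A n) ∧
    -- 4. some threshold tends to infinity
    (∀ Q : Set ℕ,
      (¬ Summable (Set.indicator {p : ℕ | p.Prime ∧ p ∈ Q} fun p : ℕ => 1 / (p : ℝ))) →
      ∃ g : ℕ → ℝ, Tendsto g atTop atTop ∧ ∀ δ : ℝ, 0 < δ → ∀ A : Set ℕ, Biased Q δ A →
        Dense g A → ∀ K : ℕ, ∃ n, K < rep A n) := by
  have key : ∀ (Q : Set ℕ) (δ : ℝ) (g : ℕ → ℝ), 0 < δ → Tendsto g atTop atTop →
      Tendsto (fun N => recSum Q N / g N ^ 4) atTop atTop →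
      ∀ A : Set ℕ, Biased Q δ A → Dense g A →
        (∀ B : ℝ, ∃ᶠ N : ℕ in atTop, B * N < ∑ n ∈ range N, (rep A n : ℝ) ^ 2) ∧
        ∀ K : ℕ, ∃ n, K < rep A n := by
    intro Q δ g hδ hg hs A hA hd
    have h := threshold g A (hg.eventually_gt_atTop 0) hd (biased_case Q δ hδ g hg hs A hA)
    exact ⟨h, unbounded_of_mean A h⟩
  refine ⟨energy, fun g A hg hA hb => ?_, key, fun Q hQ => ?_⟩
  · have h := threshold g A hg hA hb
    exact ⟨h, unbounded_of_mean A h⟩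
  · have ht := recSum_tendsto Q hQ
    refine ⟨fun N => recSum Q N ^ (1 / 8 : ℝ),
      (tendsto_rpow_atTop (by norm_num)).comp ht, fun δ hδ A hA hd => ?_⟩
    refine (key Q δ _ hδ ((tendsto_rpow_atTop (by norm_num)).comp ht) ?_ A hA hd).2
    have h1 : Tendsto (fun N => recSum Q N ^ (1 / 2 : ℝ)) atTop atTop :=
      (tendsto_rpow_atTop (by norm_num)).comp ht
    refine h1.congr' ?_
    filter_upwards [ht.eventually_gt_atTop 0] with N hN
    simp only [Function.comp]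
    rw [← Real.rpow_natCast, ← Real.rpow_mul hN.le, eq_div_iff (Real.rpow_pos_of_pos hN _).ne',
      ← Real.rpow_add hN]
    norm_num

end Pool.Agent.Results.MP_491344_nt.NonuniformThresholds
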