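import Pool.Agent.Y940.ES.Thresh

/-!
# MP_491344_nt: thresholds for unions of sets with few popular differences

`rep A n` is the number of ordered pairs of elements of `A` with sum `n`, and `dif A N d` is the
number of ways to write `d` as a difference of two elements of `A ∩ [0, N]`. Let `g(N) > 0` and
`g(N) = o(√(log N))`.

1. If `|A ∩ [1, N]| ≫ √N / g(N)` and `r_A` is bounded, then for every partition of `A` into
   finitely many classes, every `l` and every `ε > 0`, at least `N^(1 - ε)` of the differences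
   `d ≤ N` have `l` representations inside one class, for all large `N`.
2. Hence `g` forces unbounded representations inside the class of all `A ⊆ S_1 ∪ ... ∪ S_k` such
   that for some `l`, `ε > 0` and arbitrarily large `N` at most `N^(1 - ε)` of the `d ≤ N` have `l`
   representations as a difference inside some `S_i`.
3. In particular `g` forces unbounded representations inside the class of all finite unions of
   Sidon sets, and of sets with at most 3 ordered representations.

For a single Sidon set this is Erdős's theorem `liminf A(x) √(log x / x) < ∞`.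
-/

set_option autoImplicit false

open Finset Filter Topology

namespace Pool.Agent.Results.MP_491344_nt.PopularThresholds

/-- `r_A(n)`: the number of ordered pairs of elements of `A` with sum `n` -/
noncomputable def rep (A : Set ℕ) (n : ℕ) : ℕ :=
  {p : ℕ × ℕ | p.1 ∈ A ∧ p.2 ∈ A ∧ p.1 + p.2 = n}.ncard

/-- the number of `b ∈ A` with `b + d ∈ A` and `b + d ≤ N` -/
noncomputable def dif (A : Set ℕ) (N d : ℕ) : ℕ :=
  {b : ℕ | b ∈ A ∧ b + d ∈ A ∧ b + d ≤ N}.ncard

/-- `|A ∩ [1, N]| ≫ √N / g(N)` -/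
def Dense (g : ℕ → ℝ) (A : Set ℕ) : Prop :=
  ∃ C : ℝ, 0 < C ∧ ∀ᶠ N : ℕ in atTop,
    Real.sqrt (N : ℝ) / g N ≤ C * ((A ∩ Set.Icc 1 N).ncard : ℝ)

/-- `g` forces unbounded representations inside the class `𝒞` -/
def ForcesIn (𝒞 : Set ℕ → Prop) (g : ℕ → ℝ) : Prop :=
  ∀ A : Set ℕ, 𝒞 A → Dense g A → ∀ K : ℕ, ∃ n, K < rep A n

open Classical in
/-- `A` is covered by finitely many sets `S i`, and for arbitrarily large `N` at most `N^(1 - ε)`
numbers `d ≤ N` have `l` or more representations as a difference inside one of them -/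
def FewPopular (A : Set ℕ) : Prop :=
  ∃ (k l : ℕ) (S : Fin k → Set ℕ) (ε : ℝ), 0 < ε ∧ A ⊆ ⋃ i, S i ∧
    ∃ᶠ N : ℕ in atTop, (((Icc 1 N).filter (fun d => ∃ i, l ≤ dif (S i) N d)).card : ℝ) ≤
      (N : ℝ) ^ (1 - ε)

open Classical in
theorem result (g : ℕ → ℝ) (hg0 : ∀ᶠ N in atTop, 0 < g N)
    (hg : Tendsto (fun N : ℕ => g N ^ 2 / Real.log N) atTop (𝓝 0)) :
    -- 1. popular monochromatic differences
    (∀ A : Set ℕ, Dense g A → (∃ K, ∀ n, rep A n ≤ K) → ∀ (k l : ℕ) (χ : ℕ → Fin k) (ε : ℝ),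
      0 < ε → ∀ᶠ N : ℕ in atTop, (N : ℝ) ^ (1 - ε) ≤
        (((Icc 1 N).filter
          (fun d => ∃ i : Fin k, l ≤ dif {a | a ∈ A ∧ χ a = i} N d)).card : ℝ)) ∧
    -- 2. thresholds
    ForcesIn FewPopular g ∧
    -- 3. finite unions of Sidon sets
    ForcesIn (fun A => ∃ (k : ℕ) (S : Fin k → Set ℕ), A ⊆ ⋃ i, S i ∧ ∀ i n, rep (S i) n ≤ 3)
      g := by
  refine ⟨?_, ?_, ?_⟩
  · rintro A hA ⟨K, hK⟩ k l χ ε hε
    have h0 : 0 < min (ε / 4) (1 / 4) := lt_min (by positivity) (by norm_num)
    have h := Pool.Agent.Y940.ES.popular_thresh g hg0 hg K k (l + 1) (by omega) _ h0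
      (min_le_right _ _) A hK hA χ
    filter_upwards [h, eventually_ge_atTop 1] with N hN hN1
    rw [Pool.Agent.Y940.ES.pop_eq] at hN
    have h1 : (N : ℝ) ^ (1 - ε) ≤ (N : ℝ) ^ (1 - 4 * min (ε / 4) (1 / 4)) := by
      refine Real.rpow_le_rpow_of_exponent_le (by exact_mod_cast hN1) ?_
      have := min_le_left (ε / 4) (1 / 4)
      linarith
    refine h1.trans (hN.trans ?_)
    have h2 : ((Icc 1 N).filter
        (fun d => ∃ i : Fin k, l + 1 ≤ dif {a | a ∈ A ∧ χ a = i} N d)).card ≤
        ((Icc 1 N).filter (fun d => ∃ i : Fin k, l ≤ dif {a | a ∈ A ∧ χ a = i} N d)).card := by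
      refine card_le_card ?_
      intro d hd
      rw [mem_filter] at hd ⊢
      obtain ⟨i, hi⟩ := hd.2
      exact ⟨hd.1, i, by omega⟩
    exact_mod_cast h2
  · intro A hA hD K
    exact Pool.Agent.Y940.ES.forces_few g hg0 hg A hA hD K
  · rintro A ⟨k, S, hAS, hS⟩ hD K
    exact Pool.Agent.Y940.ES.forces_few g hg0 hg A
      (Pool.Agent.Y940.ES.few_of_sidon A k S hAS hS) hD K

end Pool.Agent.Results.MP_491344_nt.PopularThresholds
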