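import Pool.Agent.Y940.CT.Sharp

/-!
# Density thresholds inside random sets

A random set `A = rset E ω = {n | ω ∈ E n}` of natural numbers is given by events `E n` with
`P(T ⊆ A) ≤ ∏_{n ∈ T} p n` for all finite `T` (`Sub μ E p`; equality with `p n = P(n ∈ A)` if the
events are independent). `rep B n` is the number of ordered pairs of elements of `B` with sum `n`, and
`count B N = |B ∩ [1, N]|`. A function `g` forces unbounded representations inside a set `S` if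
every `B ⊆ S` with `|B ∩ [1, N]| ≫ √N / g(N)` has an unbounded representation function
(`ForcesIn S g`; the problem asks for the set `S = ℕ`).

1. If `p n ≤ ϖ N` for `M N < n ≤ N` and `N ^ (-1 / (4 (K + 1))) ≤ ϖ N ≤ 1 / 3`, then almost surely
   EVERY subset `B` of the random set with `rep B ≤ K` satisfies
   `|B ∩ [1, N]| ≤ √(K (2 M N + 1)) + C √(ϖ N * N)` for all large `N`, `C = C(K)`.
2. If `g → ∞`, `g(N) = N ^ o(1)` and `g(N)² p n → 0` for `N / g(N)³ ≤ n ≤ N → ∞`, then almost surely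
   `g` forces unbounded representations inside the random set; it is enough that
   `|B ∩ [1, N]| ≥ c √N / g(N)` for infinitely many `N`.
3. For every `p n → 0` (arbitrarily slowly) there is a `g → ∞`, depending only on `p`, which almost
   surely forces unbounded representations inside every random set with these probabilities.
4. The exact threshold for the random sets themselves, for independent events with
   `P(n ∈ A) ≤ n ^ (-δ)` for large `n`, for some `δ > 0`: the condition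
   `|A ∩ [1, N]| ≫ √N / g(N)` forces almost surely an unbounded representation function if and only
   if for all `η > 0` we have `g(N) < N ^ η` for infinitely many `N`.
-/

set_option autoImplicit false

namespace Pool.Agent.Results.MP_491344_nt.RandomThresholds

open Filter Finset MeasureTheory ProbabilityTheory Pool.Agent.Y940.RS Pool.Agent.Y940.CT

universe u

/-- `|B ∩ [1, N]| ≫ √N / g(N)` -/
def Dense (g : ℕ → ℝ) (B : Set ℕ) : Prop :=
  ∃ C : ℝ, 0 < C ∧ ∀ᶠ N : ℕ in atTop, Real.sqrt N / g N ≤ C * count B N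

/-- `g` forces unbounded representations inside `S` -/
def ForcesIn (S : Set ℕ) (g : ℕ → ℝ) : Prop :=
  ∀ B : Set ℕ, B ⊆ S → Dense g B → ∀ K, ∃ n, K < rep B n

/-- `g` forces unbounded representations for random sets with independent membership and
polynomially decaying probabilities -/
def ForcesRandom (g : ℕ → ℝ) : Prop :=
  ∀ (Ω : Type) [MeasurableSpace Ω] (μ : Measure Ω) [IsProbabilityMeasure μ] (E : ℕ → Set Ω),
    (∀ n, MeasurableSet (E n)) → iIndepSet E μ →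
    (∃ δ : ℝ, 0 < δ ∧ ∀ᶠ n : ℕ in atTop, μ.real (E n) ≤ (n : ℝ) ^ (-δ)) →
    ∀ᵐ ω ∂μ, Dense g (rset E ω) → ∀ K, ∃ n, K < rep (rset E ω) n

theorem dense_freq {g : ℕ → ℝ} {B : Set ℕ} (hg : ∀ᶠ N in atTop, 0 < g N) (h : Dense g B) :
    ∃ c : ℝ, 0 < c ∧ ∀ᶠ N : ℕ in atTop, c * Real.sqrt N ≤ g N * count B N := by
  obtain ⟨C, hC, hN⟩ := h
  refine ⟨1 / C, by positivity, ?_⟩
  filter_upwards [hN, hg] with N h1 h2
  rw [div_le_iff₀ h2] at h1
  rw [one_div, inv_mul_le_iff₀ hC]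
  linarith

theorem forces_part {Ω : Type u} [MeasurableSpace Ω] {μ : Measure Ω} [IsProbabilityMeasure μ]
    {E : ℕ → Set Ω} {p : ℕ → ℝ} (hE : Sub μ E p) {g : ℕ → ℝ} (hg : Tendsto g atTop atTop)
    (hg2 : ∀ η : ℝ, 0 < η → ∀ᶠ N : ℕ in atTop, g N ≤ (N : ℝ) ^ η)
    (hgp : ∀ ε : ℝ, 0 < ε → ∀ᶠ N : ℕ in atTop, ∀ n : ℕ, n ≤ N → (N : ℝ) ≤ n * g N ^ 3 →
      p n * g N ^ 2 ≤ ε) :
    ∀ᵐ ω ∂μ, ForcesIn (rset E ω) g ∧ ∀ B : Set ℕ, B ⊆ rset E ω → ∀ c : ℝ, 0 < c →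
      (∃ᶠ N : ℕ in atTop, c * Real.sqrt N ≤ g N * count B N) → ∀ K, ∃ n, K < rep B n := by
  filter_upwards [forces_inside hE hg hg2 hgp] with ω hω
  refine ⟨fun B hB hd => ?_, hω⟩
  obtain ⟨c, hc, h1⟩ := dense_freq (hg.eventually_gt_atTop 0) hd
  exact hω B hB c hc h1.frequently

theorem threshold_mp {g : ℕ → ℝ} (h : ForcesRandom g) (η : ℝ) (hη : 0 < η) :
    ∃ᶠ N : ℕ in atTop, g N < (N : ℝ) ^ η := by
  by_contra hcon
  rw [not_frequently] at hcon
  set θ : ℝ := min η (1 / 4) with hθ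
  have hθ0 : 0 < θ := lt_min hη (by norm_num)
  have hθ1 : θ < 1 / 2 := lt_of_le_of_lt (min_le_right _ _) (by norm_num)
  obtain ⟨Ω, _, μ, _, E, hm, hi, hp⟩ := exists_random (pw θ) (pw_nonneg θ) (pw_le_one hθ0)
  have h1 := h Ω μ E hm hi ⟨1 / 2, by norm_num, by
    filter_upwards [eventually_ge_atTop 1] with n hn
    rw [hp]
    unfold pw
    exact Real.rpow_le_rpow_of_exponent_le (by exact_mod_cast hn) (by linarith)⟩
  have h2 := ae_bounded (fun k => KW.of_indep hm hi k) hθ0 hp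
  have h3 := ae_count_ge (fun k => KW.of_indep hm hi k) hθ0 hθ1 hp
  obtain ⟨ω, h4, ⟨R, h5⟩, h6⟩ := (h1.and (h2.and h3)).exists
  obtain ⟨n, hn⟩ := h4 ⟨4, by norm_num, by
    filter_upwards [h6, hcon, eventually_ge_atTop 1] with N h7 h8 h9
    have hN1 : (1 : ℝ) ≤ N := by exact_mod_cast h9
    have hN0 : (0 : ℝ) < N := by linarith
    refine le_trans ?_ h7
    have h10 : (N : ℝ) ^ θ ≤ g N :=
      (Real.rpow_le_rpow_of_exponent_le hN1 (min_le_left _ _)).trans (not_lt.1 h8)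
    have h11 : 0 < (N : ℝ) ^ θ := Real.rpow_pos_of_pos hN0 _
    calc Real.sqrt N / g N ≤ Real.sqrt N / (N : ℝ) ^ θ :=
          div_le_div_of_nonneg_left (Real.sqrt_nonneg _) h11 h10
      _ = (N : ℝ) ^ (1 / 2 - θ) := by
          rw [Real.sqrt_eq_rpow, Real.rpow_sub hN0]⟩ R
  have := h5 n
  omega

theorem threshold_mpr {g : ℕ → ℝ} (hg : ∀ᶠ N in atTop, 0 < g N)
    (h : ∀ η : ℝ, 0 < η → ∃ᶠ N : ℕ in atTop, g N < (N : ℝ) ^ η) : ForcesRandom g := by
  intro Ω _ μ _ E hm hi hδ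
  obtain ⟨δ, hδ0, hp⟩ := hδ
  have hSub : Sub μ E (fun n => μ.real (E n)) :=
    ⟨fun n => measureReal_nonneg, fun T => ((KW.of_indep hm hi T.card).2 T le_rfl).le⟩
  have h1 : ∀ K : ℕ, ∃ κ : ℝ, 0 < κ ∧ ∀ᵐ ω ∂μ, (∀ s, rep (rset E ω) s ≤ K) →
      ∀ᶠ N : ℕ in atTop, count (rset E ω) N ≤ (N : ℝ) ^ (1 / 2 - κ) := by
    intro K
    obtain ⟨κ, hκ, h2⟩ := power_saving K δ hδ0
    refine ⟨κ, hκ, ?_⟩
    filter_upwards [h2 μ E _ hSub hp] with ω hω hK
    exact hω _ (Set.Subset.refl _) hK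
  choose κ hκ h2 using h1
  filter_upwards [ae_all_iff.2 h2] with ω hω hd K
  by_contra hcon
  push Not at hcon
  have h3 := hω K hcon
  obtain ⟨c, hc, h4⟩ := dense_freq hg hd
  have hlim : Tendsto (fun N : ℕ => (N : ℝ) ^ (κ K / 2)) atTop atTop :=
    (tendsto_rpow_atTop (by have := hκ K; positivity)).comp tendsto_natCast_atTop_atTop
  obtain ⟨N, h5, h6, h7, h8, h9, h10⟩ := ((h (κ K / 2) (by have := hκ K; positivity)).and_eventually
    (h3.and (h4.and (hg.and ((hlim.eventually_gt_atTop (1 / c)).and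
      (eventually_ge_atTop 1)))))).exists
  have hN0 : (0 : ℝ) < N := by exact_mod_cast h10
  have h11 : g N * count (rset E ω) N ≤ (N : ℝ) ^ (1 / 2 - κ K / 2) := by
    have h12 : 0 ≤ count (rset E ω) N := by unfold count; positivity
    calc g N * count (rset E ω) N ≤ (N : ℝ) ^ (κ K / 2) * (N : ℝ) ^ (1 / 2 - κ K) :=
          mul_le_mul h5.le h6 h12 (by positivity)
      _ = (N : ℝ) ^ (1 / 2 - κ K / 2) := by
          rw [← Real.rpow_add hN0]
          congr 1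
          ring
  have h12 : c * Real.sqrt N ≤ (N : ℝ) ^ (1 / 2 - κ K / 2) := h7.trans h11
  have h13 : Real.sqrt N = (N : ℝ) ^ (κ K / 2) * (N : ℝ) ^ (1 / 2 - κ K / 2) := by
    rw [← Real.rpow_add hN0, Real.sqrt_eq_rpow]
    congr 1
    ring
  rw [h13] at h12
  have h14 : 0 < (N : ℝ) ^ (1 / 2 - κ K / 2) := Real.rpow_pos_of_pos hN0 _
  have h15 : (c * (N : ℝ) ^ (κ K / 2)) * (N : ℝ) ^ (1 / 2 - κ K / 2) ≤
      1 * (N : ℝ) ^ (1 / 2 - κ K / 2) := by linarith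
  have h16 := le_of_mul_le_mul_right h15 h14
  rw [div_lt_iff₀ hc] at h9
  linarith

/-- **Density thresholds inside random sets.** -/
theorem result :
    -- 1. all subsets of a random set
    (∀ K : ℕ, ∃ C : ℝ, 0 < C ∧
      ∀ (Ω : Type u) [MeasurableSpace Ω] (μ : Measure Ω) [IsProbabilityMeasure μ]
        (E : ℕ → Set Ω) (p : ℕ → ℝ), Sub μ E p → ∀ (M : ℕ → ℕ) (ϖ : ℕ → ℝ),
        (∀ᶠ N : ℕ in atTop, (N : ℝ) ^ (-(1 / (4 * ((K : ℝ) + 1)))) ≤ ϖ N ∧ ϖ N ≤ 1 / 3 ∧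
          ∀ n, M N < n → n ≤ N → p n ≤ ϖ N) →
        ∀ᵐ ω ∂μ, ∀ B : Set ℕ, B ⊆ rset E ω → (∀ s, rep B s ≤ K) →
          ∀ᶠ N : ℕ in atTop, count B N ≤
            Real.sqrt (K * (2 * M N + 1)) + C * Real.sqrt (ϖ N * N)) ∧
    -- 2. thresholds inside a random set
    (∀ (Ω : Type u) [MeasurableSpace Ω] (μ : Measure Ω) [IsProbabilityMeasure μ]
      (E : ℕ → Set Ω) (p g : ℕ → ℝ), Sub μ E p → Tendsto g atTop atTop →
      (∀ η : ℝ, 0 < η → ∀ᶠ N : ℕ in atTop, g N ≤ (N : ℝ) ^ η) →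
      (∀ ε : ℝ, 0 < ε → ∀ᶠ N : ℕ in atTop, ∀ n : ℕ, n ≤ N → (N : ℝ) ≤ n * g N ^ 3 →
        p n * g N ^ 2 ≤ ε) →
      ∀ᵐ ω ∂μ, ForcesIn (rset E ω) g ∧ ∀ B : Set ℕ, B ⊆ rset E ω → ∀ c : ℝ, 0 < c →
        (∃ᶠ N : ℕ in atTop, c * Real.sqrt N ≤ g N * count B N) → ∀ K, ∃ n, K < rep B n) ∧
    -- 3. in every random set of density zero some function tending to infinity forces
    (∀ p : ℕ → ℝ, Tendsto p atTop (nhds 0) → ∃ g : ℕ → ℝ, Tendsto g atTop atTop ∧
      ∀ (Ω : Type u) [MeasurableSpace Ω] (μ : Measure Ω) [IsProbabilityMeasure μ]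
        (E : ℕ → Set Ω), Sub μ E p → ∀ᵐ ω ∂μ, ForcesIn (rset E ω) g) ∧
    -- 4. the exact threshold for independent random sets
    (∀ g : ℕ → ℝ, (∀ᶠ N in atTop, 0 < g N) →
      (ForcesRandom g ↔ ∀ η : ℝ, 0 < η → ∃ᶠ N : ℕ in atTop, g N < (N : ℝ) ^ η)) := by
  refine ⟨fun K => ?_, fun Ω _ μ _ E p g hE hg hg2 hgp => forces_part hE hg hg2 hgp,
    fun p hp => ?_, fun g hg => ⟨threshold_mp, threshold_mpr hg⟩⟩
  · obtain ⟨C, hC, h⟩ := ae_subsets K
    exact ⟨C, hC, fun Ω _ μ _ E p hE M ϖ hev => h μ E p hE M ϖ hev⟩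
  · obtain ⟨g, hg, hg2, hgp⟩ := exists_g hp
    refine ⟨g, hg, fun Ω _ μ _ E hE => ?_⟩
    filter_upwards [forces_part hE hg hg2 hgp] with ω hω
    exact hω.1

end Pool.Agent.Results.MP_491344_nt.RandomThresholds
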